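import Pool.Agent.H404R3.PolyStd
import Pool.Agent.H404R3.PolyNo

/-!
# MP_d21795_pr, Q1 for `q > 1`: the exact limit law of the area of self-avoiding polygons

Half-perimeters are written `m = 2 k + r` with `r = 0` or `r = 1`; the largest area is `k (k + r)`.
`coef r d` counts the pairs of an integer `j` and four partitions with
`j (j + r) + |λ₀| + |λ₁| + |λ₂| + |λ₃| = d`, and `D` is the random variable with
`P(D = d) = coef r d q ^ (-d) / ∑_e coef r e q ^ (-e)`.
-/

namespace Pool.Agent.Results.MP_d21795_pr.ExactLaw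

open H404SAP Filter Topology

/-- **Theorem.** Let `q > 1` and `r ∈ {0, 1}`. The number of self-avoiding polygons of
half-perimeter `2 k + r` and area `k (k + r) - d` is `coef r d` for all `k ≥ 3 d + 6`, and
`k (k + r) - X_m` converges in law, along `m = 2 k + r`, to the discrete variable `D`; its mean and
variance converge to those of `D`, the variance of `D` is positive, and the standardised area
converges in law to `(E D - D) / √(Var D)`. So there is no continuous limit law under any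
normalisation, and the limit law is not Gaussian. -/
theorem result : ∀ q : ℝ, 1 < q → ∀ r : ℕ, r ≤ 1 →
    (∀ k : ℕ, 1 ≤ k → ∀ n, k * (k + r) < n → p (2 * k + r) n = 0) ∧
    (∀ d k : ℕ, 3 * d + 6 ≤ k → p (2 * k + r) (k * (k + r) - d) = coef r d) ∧
    HasSum (fun d => (coef r d : ℝ) * (q⁻¹) ^ d / ZD r q) 1 ∧
    (∀ d : ℕ, Tendsto (fun k : ℕ => E q (2 * k + r) (fun n => if n + d = k * (k + r) then 1 else 0))
      atTop (𝓝 ((coef r d : ℝ) * (q⁻¹) ^ d / ZD r q))) ∧
    Tendsto (fun k : ℕ => ((k * (k + r) : ℕ) : ℝ) - meanX q (2 * k + r)) atTop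
      (𝓝 (meanD r q)) ∧
    0 < varD r q ∧
    Tendsto (fun k : ℕ => varX q (2 * k + r)) atTop (𝓝 (varD r q)) ∧
    (∀ φ : ℝ → ℝ, Continuous φ → (∃ C, ∀ x, |φ x| ≤ C) →
      Tendsto (fun k : ℕ => E q (2 * k + r) (fun n =>
        φ (((n : ℝ) - meanX q (2 * k + r)) / √(varX q (2 * k + r))))) atTop
        (𝓝 (ED r q (fun e => φ ((meanD r q - e) / √(varD r q)))))) ∧
    (∀ a b : ℕ → ℝ, ∀ G : ℝ → ℝ, Continuous G → Tendsto G atBot (𝓝 0) → Tendsto G atTop (𝓝 1) →
      ¬ ∀ x, Tendsto (fun k => cdfX q (2 * k + r) (a k + b k * x)) atTop (𝓝 (G x))) ∧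
    ¬ ∀ x, Tendsto (fun m => cdfX q m (meanX q m + √(varX q m) * x)) atTop
      (𝓝 ((ProbabilityTheory.cdf (ProbabilityTheory.gaussianReal 0 1)) x)) := by
  intro q hq r hr
  refine ⟨fun k hk n hn => p_zerog hr hk hn, fun d k hk => count hr hk, ?_, law hr hq,
    mean_tendsto hr hq, varD_pos hr hq, var_tendsto hr hq, ?_, ?_, ?_⟩
  · have h := (summable_coef hr hq).hasSum.div_const (ZD r q)
    have e : (∑' e, (coef r e : ℝ) * (q⁻¹) ^ e) / ZD r q = 1 := div_self (ZD_pos hr hq).ne'
    rwa [e] at h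
  · rintro φ hφ ⟨C, hC⟩
    exact std_law hr hq hφ hC
  · exact fun a b G hG h0 h1 => no_continuous hr hq a b G hG h0 h1
  · obtain ⟨c, hc0, hc1, hno⟩ := no_limit hq
    intro h
    obtain ⟨x, hx⟩ := ((ProbabilityTheory.tendsto_cdf_atTop
      (ProbabilityTheory.gaussianReal 0 1)).eventually
      (lt_mem_nhds (by linarith : (1 - c : ℝ) < 1))).exists
    exact hno _ _ (fun x => (ProbabilityTheory.cdf (ProbabilityTheory.gaussianReal 0 1)) x) x hx
      (gauss_ne_one x) (h x)

end Pool.Agent.Results.MP_d21795_pr.ExactLaw
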